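import Mathlib

set_option autoImplicit false

/-! Navier-Stokes in three dimensions: vector potential, mean oscillation, solenoidal test fields. -/

open MeasureTheory Set Filter Topology Metric
open scoped ContDiff

noncomputable section

namespace Pool.Agent.NSB

/-- Euclidean 3-space. -/
abbrev E := EuclideanSpace ℝ (Fin 3)

/-- The `i`-th partial derivative of a function on 3-space. -/
def pd (i : Fin 3) (f : E → ℝ) (x : E) : ℝ := fderiv ℝ f x (EuclideanSpace.single i 1)

/-- The curl of a vector field. -/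
def curl (v : E → E) (x : E) : E :=
  !₂[pd 1 (fun y => v y 2) x - pd 2 (fun y => v y 1) x,
     pd 2 (fun y => v y 0) x - pd 0 (fun y => v y 2) x,
     pd 0 (fun y => v y 1) x - pd 1 (fun y => v y 0) x]

/-- The divergence of a vector field. -/
def dvg (v : E → E) (x : E) : ℝ := ∑ i, pd i (fun y => v y i) x

/-- The Laplacian of a function. -/
def lap (f : E → ℝ) (x : E) : ℝ := ∑ i, pd i (pd i f) x

/-- The Laplacian of a vector field. -/
def lapV (v : E → E) (x : E) : E :=
  !₂[lap (fun y => v y 0) x, lap (fun y => v y 1) x, lap (fun y => v y 2) x]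

/-- `(u, p)` is a smooth solution on `(0, T)` of the Navier-Stokes equations in 3-space with
viscosity `1/2`, with bounded kinetic energy. -/
structure IsSolution (T : ℝ) (u : ℝ → E → E) (p : ℝ → E → ℝ) : Prop where
  smooth_vel : ContDiffOn ℝ ∞ (fun q : ℝ × E => u q.1 q.2) (Ioo 0 T ×ˢ univ)
  smooth_pres : ContDiffOn ℝ ∞ (fun q : ℝ × E => p q.1 q.2) (Ioo 0 T ×ˢ univ)
  div_free : ∀ t ∈ Ioo 0 T, ∀ x, dvg (u t) x = 0
  momentum : ∀ t ∈ Ioo 0 T, ∀ x i,
    deriv (fun s => u s x i) t + ∑ j, u t x j * pd j (fun y => u t y i) x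
      = - pd i (p t) x + (1 / 2) * lap (fun y => u t y i) x
  energy : ∃ E₀ : ℝ, ∀ t ∈ Ioo 0 T, Integrable (fun x => ‖u t x‖ ^ 2) ∧ ∫ x, ‖u t x‖ ^ 2 ≤ E₀

/-- `ψ` is the vector potential of `v`. -/
structure IsVectorPotential (v ψ : E → E) : Prop where
  smooth : ContDiff ℝ ∞ ψ
  curl_eq : ∀ x, curl ψ x = v x
  dvg_eq : ∀ x, dvg ψ x = 0
  decay : Tendsto ψ (cocompact E) (𝓝 0)

/-- The BMO seminorm of a vector field: the supremum over all balls of the mean oscillation. -/
def bmo (f : E → E) : ENNReal :=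
  ⨆ (c : E) (r : ℝ) (_ : 0 < r),
    (volume (ball c r))⁻¹ * ∫⁻ x in ball c r, ‖f x - ⨍ y in ball c r, f y‖ₑ

/-- Solenoidal test fields supported in a ball. -/
structure IsTest (c : E) (r : ℝ) (φ : E → E) : Prop where
  smooth : ContDiff ℝ ∞ φ
  supp : tsupport φ ⊆ ball c r
  div_free : ∀ x, dvg φ x = 0

end Pool.Agent.NSB
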