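import Pool.Agent.NSB.WeakForm

set_option autoImplicit false

open MeasureTheory Set Filter Topology Metric
open scoped ContDiff ENNReal

noncomputable section

namespace Pool.Agent.NSB

variable {T : ℝ} {u : ℝ → E → E} {p : ℝ → E → ℝ}

theorem contOn_setIntegral {w : ℝ → E → ℝ}
    (hw : ContinuousOn (fun q : ℝ × E => w q.1 q.2) (Ioo 0 T ×ˢ univ)) (c : E) (r : ℝ) :
    ContinuousOn (fun s => ∫ x in ball c r, w s x) (Ioo 0 T) := by
  intro t ht
  apply ContinuousAt.continuousWithinAt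
  obtain ⟨ε, hε, hb⟩ : ∃ ε > 0, closedBall t ε ⊆ Ioo 0 T :=
    nhds_basis_closedBall.mem_iff.1 (isOpen_Ioo.mem_nhds ht)
  have hK : IsCompact (closedBall t ε ×ˢ closedBall c r) :=
    (isCompact_closedBall t ε).prod (isCompact_closedBall c r)
  have hsub : closedBall t ε ×ˢ closedBall c r ⊆ Ioo 0 T ×ˢ (univ : Set E) :=
    prod_mono hb (subset_univ _)
  obtain ⟨C, hC⟩ := hK.exists_bound_of_continuousOn (hw.mono hsub)
  have hsl : ∀ s ∈ Ioo 0 T, Continuous (w s) := by
    intro s hs
    have h1 : ContinuousOn (fun x : E => ((s, x) : ℝ × E)) univ :=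
      (continuous_const.prodMk continuous_id).continuousOn
    exact continuousOn_univ.1 (hw.comp h1 fun x _ => ⟨hs, mem_univ _⟩)
  refine continuousAt_of_dominated (bound := fun _ => C) ?_ ?_ ?_ ?_
  · filter_upwards [isOpen_Ioo.mem_nhds ht] with s hs
    exact (hsl s hs).aestronglyMeasurable
  · filter_upwards [closedBall_mem_nhds t hε] with s hs
    filter_upwards [ae_restrict_mem measurableSet_ball] with x hx
    exact hC (s, x) ⟨hs, ball_subset_closedBall hx⟩
  · exact integrableOn_const measure_ball_lt_top.ne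
  · refine Eventually.of_forall fun x => ?_
    have h1 : ContinuousAt (fun q : ℝ × E => w q.1 q.2) (t, x) :=
      hw.continuousAt ((isOpen_slab T).mem_nhds ⟨ht, mem_univ _⟩)
    exact h1.comp (f := fun s : ℝ => ((s, x) : ℝ × E))
      (continuousAt_id.prodMk continuousAt_const)

/-- local kinetic energy -/
def locEn (u : ℝ → E → E) (c : E) (r s : ℝ) : ℝ := ∫ x in ball c r, ‖u s x‖ ^ 2

theorem locEn_nonneg (u : ℝ → E → E) (c : E) (r s : ℝ) : 0 ≤ locEn u c r s :=
  integral_nonneg fun x => by positivity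

theorem contOn_vel (h : IsSolution T u p) :
    ContinuousOn (fun q : ℝ × E => u q.1 q.2) (Ioo 0 T ×ˢ univ) := h.smooth_vel.continuousOn

theorem contOn_locEn (h : IsSolution T u p) (c : E) (r : ℝ) :
    ContinuousOn (locEn u c r) (Ioo 0 T) :=
  contOn_setIntegral (w := fun s x => ‖u s x‖ ^ 2) ((contOn_vel h).norm.pow 2) c r

theorem hasCompactSupport_of_ball {φ : E → E} {c : E} {r : ℝ} (hs : tsupport φ ⊆ ball c r) :
    HasCompactSupport φ :=
  (isCompact_closedBall c r).of_isClosed_subset isClosed_closure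
      (hs.trans ball_subset_closedBall)

theorem lapV_eq_zero {φ : E → E} {x : E} (hx : x ∉ tsupport φ) : lapV φ x = 0 := by
  ext i
  rw [lapV_apply]
  by_contra h
  exact hx (tsupport_comp i (tsupport_lap (subset_tsupport _ h)))

theorem fderiv_eq_zero {φ : E → E} {x : E} (hx : x ∉ tsupport φ) : fderiv ℝ φ x = 0 := by
  by_contra h
  exact hx (support_fderiv_subset ℝ h)

/-- Bound for the time derivative of the pairing. -/
theorem deriv_bound (h : IsSolution T u p) {t : ℝ} (ht : t ∈ Ioo 0 T) {φ : E → E} {c : E}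
    {r G H : ℝ} (hr : 0 < r) (hs : tsupport φ ⊆ ball c r)
    (hG : ∀ x, ‖fderiv ℝ φ x‖ ≤ G) (hH : ∀ x, ‖lapV φ x‖ ≤ H) :
    |∫ x, (inner ℝ (u t x) (fderiv ℝ φ x (u t x)) + (1 / 2) * inner ℝ (u t x) (lapV φ x))|
      ≤ (G + H * r / 4) * locEn u c r t + H / (4 * r) * volume.real (ball c r) := by
  have hu : Continuous (u t) := (slice_smooth h.smooth_vel ht).continuous
  have hG0 : 0 ≤ G := (norm_nonneg _).trans (hG 0)
  have hH0 : 0 ≤ H := (norm_nonneg _).trans (hH 0)
  set f : E → ℝ := fun x => inner ℝ (u t x) (fderiv ℝ φ x (u t x))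
    + (1 / 2) * inner ℝ (u t x) (lapV φ x) with hf
  have hf0 : ∀ x, x ∉ ball c r → f x = 0 := by
    intro x hx
    have hx' : x ∉ tsupport φ := fun h => hx (hs h)
    simp [hf, fderiv_eq_zero hx', lapV_eq_zero hx']
  have h1 : ∫ x, f x = ∫ x in ball c r, f x :=
    (setIntegral_eq_integral_of_forall_compl_eq_zero fun x hx => hf0 x hx).symm
  rw [h1]
  have hi : IntegrableOn (fun x => ‖u t x‖ ^ 2) (ball c r) :=
    ((hu.norm.pow 2).continuousOn.integrableOn_compact (isCompact_closedBall c r)).mono_set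
      ball_subset_closedBall
  have hc : IntegrableOn (fun _ : E => H / (4 * r)) (ball c r) :=
    integrableOn_const measure_ball_lt_top.ne
  have h2 : ∀ x, ‖f x‖ ≤ (G + H * r / 4) * ‖u t x‖ ^ 2 + H / (4 * r) := by
    intro x
    have a1 : |inner ℝ (u t x) (fderiv ℝ φ x (u t x))| ≤ G * ‖u t x‖ ^ 2 := by
      refine (abs_real_inner_le_norm _ _).trans ?_
      have := (fderiv ℝ φ x).le_opNorm (u t x)
      calc ‖u t x‖ * ‖fderiv ℝ φ x (u t x)‖ ≤ ‖u t x‖ * (‖fderiv ℝ φ x‖ * ‖u t x‖) := by gcongr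
        _ ≤ ‖u t x‖ * (G * ‖u t x‖) := by gcongr; exact hG x
        _ = G * ‖u t x‖ ^ 2 := by ring
    have a2 : |inner ℝ (u t x) (lapV φ x)| ≤ ‖u t x‖ * H := by
      refine (abs_real_inner_le_norm _ _).trans ?_
      gcongr; exact hH x
    have a3 : ‖u t x‖ ≤ (r * ‖u t x‖ ^ 2 + 1 / r) / 2 := by
      have : 0 ≤ (r * ‖u t x‖ - 1) ^ 2 / r := by positivity
      have e : (r * ‖u t x‖ - 1) ^ 2 / r = r * ‖u t x‖ ^ 2 + 1 / r - 2 * ‖u t x‖ := by
        field_simp; ring
      linarith
    rw [Real.norm_eq_abs]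
    calc |f x| ≤ |inner ℝ (u t x) (fderiv ℝ φ x (u t x))|
          + |(1 / 2) * inner ℝ (u t x) (lapV φ x)| := abs_add_le _ _
      _ ≤ G * ‖u t x‖ ^ 2 + (1 / 2) * (‖u t x‖ * H) := by
          rw [abs_mul, abs_of_pos (by norm_num : (0:ℝ) < 1 / 2)]
          gcongr
      _ ≤ G * ‖u t x‖ ^ 2 + (1 / 2) * ((r * ‖u t x‖ ^ 2 + 1 / r) / 2 * H) := by gcongr
      _ = (G + H * r / 4) * ‖u t x‖ ^ 2 + H / (4 * r) := by field_simp; ring
  have h3 : |∫ x in ball c r, f x|
      ≤ ∫ x in ball c r, ((G + H * r / 4) * ‖u t x‖ ^ 2 + H / (4 * r)) := by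
    rw [← Real.norm_eq_abs]
    exact norm_integral_le_of_norm_le ((hi.const_mul _).add hc) (Eventually.of_forall h2)
  refine h3.trans (le_of_eq ?_)
  rw [integral_add (hi.const_mul _) hc, integral_const_mul, setIntegral_const]
  simp only [locEn, smul_eq_mul]
  ring

theorem contOn_dtPair (h : IsSolution T u p) {φ : E → E} {c : E} {r : ℝ} (hφ : Continuous φ)
    (hs : tsupport φ ⊆ ball c r) :
    ContinuousOn (fun s => ∫ x, inner ℝ (dt u s x) (φ x)) (Ioo 0 T) := by
  have h1 : ∀ s, ∫ x, inner ℝ (dt u s x) (φ x) = ∫ x in ball c r, inner ℝ (dt u s x) (φ x) := by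
    intro s
    refine (setIntegral_eq_integral_of_forall_compl_eq_zero fun x hx => ?_).symm
    rw [image_eq_zero_of_notMem_tsupport fun h => hx (hs h), inner_zero_right]
  simp only [h1]
  refine contOn_setIntegral (w := fun s x => inner ℝ (dt u s x) (φ x)) ?_ c r
  exact (continuousOn_dt h.smooth_vel).inner (hφ.comp continuous_snd).continuousOn

/-- Increment of the pairing between two times. -/
theorem pairing_increment (h : IsSolution T u p) {s t : ℝ} (hs0 : 0 < s) (hst : s ≤ t)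
    (htT : t < T) {φ : E → E} {c : E} {r G H : ℝ} (hr : 0 < r) (hφ : IsTest c r φ)
    (hG : ∀ x, ‖fderiv ℝ φ x‖ ≤ G) (hH : ∀ x, ‖lapV φ x‖ ≤ H) :
    |(∫ x, inner ℝ (u t x) (φ x)) - ∫ x, inner ℝ (u s x) (φ x)|
      ≤ (G + H * r / 4) * (∫ τ in s..t, locEn u c r τ)
        + H / (4 * r) * volume.real (ball c r) * (t - s) := by
  have hsub : Icc s t ⊆ Ioo 0 T := fun τ hτ => ⟨hs0.trans_le hτ.1, hτ.2.trans_lt htT⟩
  have hsub' : uIcc s t ⊆ Ioo 0 T := by rw [uIcc_of_le hst]; exact hsub
  have hc := hasCompactSupport_of_ball hφ.supp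
  have hder : ∀ τ ∈ uIcc s t, HasDerivAt (fun s => ∫ x, inner ℝ (u s x) (φ x))
      (∫ x, inner ℝ (dt u τ x) (φ x)) τ := fun τ hτ =>
    hasDerivAt_pairing h.smooth_vel (hsub' hτ) hφ.smooth.continuous hc
  have hcont : ContinuousOn (fun s => ∫ x, inner ℝ (dt u s x) (φ x)) (uIcc s t) :=
    (contOn_dtPair h hφ.smooth.continuous hφ.supp).mono hsub'
  have hce : ContinuousOn (locEn u c r) (uIcc s t) := (contOn_locEn h c r).mono hsub'
  rw [← intervalIntegral.integral_eq_sub_of_hasDerivAt hder hcont.intervalIntegrable]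
  have hb : ∀ τ ∈ Icc s t, ‖∫ x, inner ℝ (dt u τ x) (φ x)‖
      ≤ (G + H * r / 4) * locEn u c r τ + H / (4 * r) * volume.real (ball c r) := by
    intro τ hτ
    rw [weak_form h (hsub hτ) hφ.smooth hc hφ.div_free, Real.norm_eq_abs]
    exact deriv_bound h (hsub hτ) hr hφ.supp hG hH
  have hint : IntervalIntegrable (fun τ => (G + H * r / 4) * locEn u c r τ
      + H / (4 * r) * volume.real (ball c r)) volume s t :=
    ((hce.const_smul (G + H * r / 4)).add continuousOn_const).intervalIntegrable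
  calc |∫ τ in s..t, ∫ x, inner ℝ (dt u τ x) (φ x)|
      ≤ ∫ τ in s..t, ((G + H * r / 4) * locEn u c r τ
          + H / (4 * r) * volume.real (ball c r)) := by
        rw [← Real.norm_eq_abs]
        exact intervalIntegral.norm_integral_le_of_norm_le hst
          (Eventually.of_forall fun τ hτ => hb τ ⟨hτ.1.le, hτ.2⟩) hint
    _ = _ := by
        have i1 : IntervalIntegrable (fun τ => (G + H * r / 4) * locEn u c r τ) volume s t :=
          hce.intervalIntegrable.const_mul _
        have i2 : IntervalIntegrable (fun _ : ℝ => H / (4 * r) * volume.real (ball c r))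
          volume s t := continuousOn_const.intervalIntegrable
        rw [intervalIntegral.integral_add i1 i2, intervalIntegral.integral_const_mul,
          intervalIntegral.integral_const]
        simp only [smul_eq_mul]
        ring

end Pool.Agent.NSB
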