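import Pool.Agent.NSB.Main

set_option autoImplicit false

open MeasureTheory Set Filter Topology Metric
open scoped ContDiff ENNReal NNReal

noncomputable section

namespace Pool.Agent.NSB

variable {T : ℝ} {u : ℝ → E → E} {p : ℝ → E → ℝ} {ψ : ℝ → E → E}

/-- Bound of the pairing by the BMO seminorm of the potential (real form). -/
theorem abs_pair_le {v ψ φ : E → E} {c : E} {r A K : ℝ} (hr : 0 < r) (hK : 0 ≤ K)
    (hψ : IsVectorPotential v ψ) (hφ : IsTest c r φ) (hA : ∀ x, ‖curl φ x‖ ≤ A)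
    (hb : bmo ψ ≤ ENNReal.ofReal K) :
    |∫ x, inner ℝ (v x) (φ x)| ≤ K * A * volume.real (ball c r) := by
  have hA0 : 0 ≤ A := (norm_nonneg _).trans (hA 0)
  have h1 := pairing_le hr (hψ.smooth.of_le (by norm_num)) (hφ.smooth.of_le (by norm_num))
    hφ.supp hA (ψ := ψ)
  have h2 : ∀ x, curl ψ x = v x := hψ.curl_eq
  simp only [h2] at h1
  have h3 : ENNReal.ofReal A * (volume (ball c r) * bmo ψ)
      ≤ ENNReal.ofReal (K * A * volume.real (ball c r)) := by
    calc ENNReal.ofReal A * (volume (ball c r) * bmo ψ)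
        ≤ ENNReal.ofReal A * (volume (ball c r) * ENNReal.ofReal K) := by gcongr
      _ = ENNReal.ofReal A * (ENNReal.ofReal (volume.real (ball c r)) * ENNReal.ofReal K) := by
          rw [measureReal_def, ENNReal.ofReal_toReal measure_ball_lt_top.ne]
      _ = ENNReal.ofReal (K * A * volume.real (ball c r)) := by
          rw [← ENNReal.ofReal_mul measureReal_nonneg, ← ENNReal.ofReal_mul hA0]
          congr 1; ring
  have h4 := h1.trans h3
  rw [← ofReal_norm, ENNReal.ofReal_le_ofReal_iff (by positivity)] at h4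
  exact h4

theorem vol_ball (c : E) {r : ℝ} (hr : 0 < r) : volume.real (ball c r) = 4 / 3 * Real.pi * r ^ 3 := by
  rw [measureReal_def, EuclideanSpace.volume_ball_fin_three, ENNReal.toReal_mul,
    ENNReal.toReal_pow, ENNReal.toReal_ofReal hr.le, ENNReal.toReal_ofReal (by positivity)]
  ring

/-- Fundamental inequality: the pairing at time `s`, the oscillation at a later time `t`. -/
theorem fundamental (h : IsSolution T u p) (hψ : ∀ t ∈ Ioo 0 T, IsVectorPotential (u t) (ψ t))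
    {s t : ℝ} (hs0 : 0 < s) (hst : s ≤ t) (htT : t < T) {φ : E → E} {c : E} {r K : ℝ}
    (hr : 0 < r) (hK : 0 ≤ K) (hφ : IsTest c r φ) (h1 : ∀ x, r * ‖fderiv ℝ φ x‖ ≤ 1)
    (h2 : ∀ x, r ^ 2 * ‖lapV φ x‖ ≤ 1) (hb : bmo (ψ t) ≤ ENNReal.ofReal K) :
    |pair u φ s| ≤ 17 * K * r ^ 2 + 5 / 4 * (r⁻¹ * ∫ τ in s..T, locEn u c r τ)
      + 5 / 4 * (T - s) := by
  have hG : ∀ x, ‖fderiv ℝ φ x‖ ≤ 1 / r := fun x => by
    rw [le_div_iff₀ hr, mul_comm]; exact h1 x
  have hH : ∀ x, ‖lapV φ x‖ ≤ 1 / r ^ 2 := fun x => by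
    rw [le_div_iff₀ (by positivity), mul_comm]; exact h2 x
  have hA : ∀ x, ‖curl φ x‖ ≤ 4 / r := fun x => by
    refine (norm_curl_le φ (hφ.smooth.differentiable (by simp) x)).trans ?_
    have := hG x
    calc 4 * ‖fderiv ℝ φ x‖ ≤ 4 * (1 / r) := by gcongr
      _ = 4 / r := by ring
  have ht : t ∈ Ioo 0 T := ⟨hs0.trans_le hst, htT⟩
  have e1 := abs_pair_le hr hK (hψ t ht) hφ hA hb
  have e2 := pairing_increment h hs0 hst htT hr hφ hG hH
  have e3 := integral_locEn_mono h hs0 hst htT c r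
  have hI : 0 ≤ ∫ τ in s..T, locEn u c r τ :=
    intervalIntegral.integral_nonneg (hst.trans htT.le) fun τ _ => locEn_nonneg _ _ _ _
  rw [vol_ball c hr] at e1 e2
  have hpi : Real.pi < 3.15 := Real.pi_lt_d2
  have hpi0 := Real.pi_pos
  have e4 : |pair u φ s| ≤ |pair u φ t| + |pair u φ t - pair u φ s| := by
    have := abs_sub_abs_le_abs_sub (pair u φ s) (pair u φ t)
    rw [abs_sub_comm] at this
    linarith
  have e5 : |pair u φ t| ≤ 17 * K * r ^ 2 := by
    refine e1.trans ?_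
    have : K * (4 / r) * (4 / 3 * Real.pi * r ^ 3) = (16 / 3 * Real.pi) * (K * r ^ 2) := by
      field_simp; ring
    rw [this]
    have h3 : 16 / 3 * Real.pi ≤ 17 := by linarith
    calc (16 / 3 * Real.pi) * (K * r ^ 2) ≤ 17 * (K * r ^ 2) := by gcongr
      _ = _ := by ring
  have e6 : |pair u φ t - pair u φ s| ≤ 5 / 4 * (r⁻¹ * ∫ τ in s..T, locEn u c r τ)
      + 5 / 4 * (T - s) := by
    refine e2.trans ?_
    have c1 : (1 / r + 1 / r ^ 2 * r / 4) = 5 / 4 * r⁻¹ := by field_simp; ring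
    have c2 : 1 / r ^ 2 / (4 * r) * (4 / 3 * Real.pi * r ^ 3) = Real.pi / 3 := by
      field_simp
    rw [c1, c2]
    have c3 : 5 / 4 * r⁻¹ * (∫ τ in s..t, locEn u c r τ)
        ≤ 5 / 4 * (r⁻¹ * ∫ τ in s..T, locEn u c r τ) := by
      rw [mul_assoc]; gcongr
    have c4 : Real.pi / 3 * (t - s) ≤ 5 / 4 * (T - s) := by
      have : Real.pi / 3 ≤ 5 / 4 := by linarith
      have h5 : t - s ≤ T - s := by linarith
      have h6 : 0 ≤ t - s := by linarith
      calc Real.pi / 3 * (t - s) ≤ 5 / 4 * (t - s) := by gcongr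
        _ ≤ 5 / 4 * (T - s) := by gcongr
    linarith
  linarith

end Pool.Agent.NSB
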