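import Pool.Agent.NSB.Defs

set_option autoImplicit false

open MeasureTheory Set Filter Topology Metric
open scoped ContDiff

noncomputable section

namespace Pool.Agent.NSB

/-- basis vector -/
abbrev bv (i : Fin 3) : E := EuclideanSpace.single i 1

theorem pd_def (i : Fin 3) (f : E → ℝ) (x : E) : pd i f x = fderiv ℝ f x (bv i) := rfl

theorem continuous_pd {f : E → ℝ} (hf : ContDiff ℝ 1 f) (i : Fin 3) : Continuous (pd i f) :=
  (hf.continuous_fderiv one_ne_zero).clm_apply continuous_const

theorem contDiff_pd {f : E → ℝ} (hf : ContDiff ℝ ∞ f) (i : Fin 3) : ContDiff ℝ ∞ (pd i f) :=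
  (hf.fderiv_right (m := ∞) (by simp)).clm_apply contDiff_const

theorem tsupport_pd {f : E → ℝ} (i : Fin 3) : tsupport (pd i f) ⊆ tsupport f := by
  refine closure_minimal ?_ isClosed_closure
  intro x hx
  by_contra h
  apply hx
  have : fderiv ℝ f x = 0 := by
    by_contra h2
    exact h (support_fderiv_subset ℝ h2)
  simp [pd, this]

theorem hasCompactSupport_pd {f : E → ℝ} (hf : HasCompactSupport f) (i : Fin 3) :
    HasCompactSupport (pd i f) := by
  unfold HasCompactSupport at *
  exact hf.of_isClosed_subset isClosed_closure (tsupport_pd i)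

/-- integration by parts -/
theorem ibp {f g : E → ℝ} (hf : ContDiff ℝ 1 f) (hg : ContDiff ℝ 1 g)
    (hc : HasCompactSupport g) (i : Fin 3) :
    ∫ x, pd i f x * g x = - ∫ x, f x * pd i g x := by
  have h1 : Integrable (fun x => fderiv ℝ f x (bv i) * g x) :=
    ((continuous_pd hf i).mul hg.continuous).integrable_of_hasCompactSupport hc.mul_left
  have h2 : Integrable (fun x => f x * fderiv ℝ g x (bv i)) :=
    (hf.continuous.mul (continuous_pd hg i)).integrable_of_hasCompactSupport
      (hasCompactSupport_pd hc i).mul_left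
  have h3 : Integrable (fun x => f x * g x) :=
    (hf.continuous.mul hg.continuous).integrable_of_hasCompactSupport hc.mul_left
  have := integral_mul_fderiv_eq_neg_fderiv_mul_of_integrable (μ := volume) h1 h2 h3
    (fun x _ => hf.differentiable one_ne_zero x) (fun x _ => hg.differentiable one_ne_zero x)
  simp only [pd_def]
  rw [this]; ring

theorem pd_mul {f g : E → ℝ} (hf : ContDiff ℝ 1 f) (hg : ContDiff ℝ 1 g) (i : Fin 3) (x : E) :
    pd i (fun y => f y * g y) x = pd i f x * g x + f x * pd i g x := by
  have h1 := (hf.differentiable one_ne_zero x)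
  have h2 := (hg.differentiable one_ne_zero x)
  have := fderiv_fun_mul h1 h2
  simp only [pd_def, this]
  simp
  ring

theorem contDiff_comp {n : WithTop ℕ∞} {v : E → E} (hv : ContDiff ℝ n v) (i : Fin 3) :
    ContDiff ℝ n (fun x => v x i) := by
  exact (contDiff_euclidean.1 hv) i

theorem tsupport_comp {v : E → E} (i : Fin 3) : tsupport (fun x => v x i) ⊆ tsupport v := by
  apply closure_mono
  intro x hx h
  apply hx
  simp [h]

theorem hasCompactSupport_comp {v : E → E} (hv : HasCompactSupport v) (i : Fin 3) :
    HasCompactSupport (fun x => v x i) := by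
  unfold HasCompactSupport at *
  exact hv.of_isClosed_subset isClosed_closure (tsupport_comp i)

theorem fderiv_comp_apply {v : E → E} {x : E} (hv : DifferentiableAt ℝ v x) (i : Fin 3) (w : E) :
    fderiv ℝ (fun y => v y i) x w = (fderiv ℝ v x w) i := by
  have h := (EuclideanSpace.proj (𝕜 := ℝ) i).hasFDerivAt (x := v x) |>.comp x hv.hasFDerivAt
  have h2 : HasFDerivAt (fun y => v y i) ((EuclideanSpace.proj (𝕜 := ℝ) i).comp (fderiv ℝ v x)) x := h
  rw [h2.fderiv]
  rfl

theorem inner_eq_sum (a b : E) : inner ℝ a b = a 0 * b 0 + a 1 * b 1 + a 2 * b 2 := by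
  simp [PiLp.inner_apply, Fin.sum_univ_three, mul_comm]

end Pool.Agent.NSB
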