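import Pool.Agent.NSB.Est

set_option autoImplicit false

open MeasureTheory Set Filter Topology Metric
open scoped ContDiff ENNReal

noncomputable section

namespace Pool.Agent.NSB

variable {T : ℝ} {u : ℝ → E → E} {p : ℝ → E → ℝ}

/-- The pairing of the velocity at time `t` with a field. -/
def pair (u : ℝ → E → E) (φ : E → E) (t : ℝ) : ℝ := ∫ x, inner ℝ (u t x) (φ x)

theorem locEn_le (h : IsSolution T u p) : ∃ E₀ : ℝ, 0 ≤ E₀ ∧ ∀ t ∈ Ioo 0 T, ∀ c r,
    locEn u c r t ≤ E₀ := by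
  obtain ⟨E₀, hE⟩ := h.energy
  refine ⟨max E₀ 0, le_max_right _ _, fun t ht c r => ?_⟩
  refine le_trans ?_ (le_max_left _ _)
  refine le_trans ?_ (hE t ht).2
  exact setIntegral_le_integral (hE t ht).1 (Eventually.of_forall fun x => by positivity)

theorem intervalIntegrable_locEn (h : IsSolution T u p) {s : ℝ} (hs : s ∈ Ioo 0 T) (c : E)
    (r : ℝ) : IntervalIntegrable (locEn u c r) volume s T := by
  obtain ⟨E₀, hE0, hE⟩ := locEn_le h
  rw [intervalIntegrable_iff_integrableOn_Ioo_of_le hs.2.le]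
  have hsub : Ioo s T ⊆ Ioo 0 T := Ioo_subset_Ioo_left hs.1.le
  refine Integrable.of_bound (((contOn_locEn h c r).mono hsub).aestronglyMeasurable
    measurableSet_Ioo) E₀ ?_
  · filter_upwards [ae_restrict_mem measurableSet_Ioo] with τ hτ
    rw [Real.norm_eq_abs, abs_of_nonneg (locEn_nonneg _ _ _ _)]
    exact hE τ (hsub hτ) c r

theorem integral_locEn_mono (h : IsSolution T u p) {s t : ℝ} (hs0 : 0 < s) (hst : s ≤ t)
    (htT : t < T) (c : E) (r : ℝ) :
    ∫ τ in s..t, locEn u c r τ ≤ ∫ τ in s..T, locEn u c r τ :=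
  intervalIntegral.integral_mono_interval le_rfl hst htT.le
    (Eventually.of_forall fun _ => locEn_nonneg _ _ _ _)
    (intervalIntegrable_locEn h ⟨hs0, hst.trans_lt htT⟩ c r)

theorem pair_lipschitz (h : IsSolution T u p) {φ : E → E} {c : E} {r G H : ℝ} (hr : 0 < r)
    (hφ : IsTest c r φ) (hG : ∀ x, ‖fderiv ℝ φ x‖ ≤ G) (hH : ∀ x, ‖lapV φ x‖ ≤ H) :
    ∃ C : ℝ, 0 ≤ C ∧ ∀ s t, 0 < s → s ≤ t → t < T → |pair u φ t - pair u φ s| ≤ C * (t - s) := by
  obtain ⟨E₀, hE0, hE⟩ := locEn_le h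
  have hG0 : 0 ≤ G := (norm_nonneg _).trans (hG 0)
  have hH0 : 0 ≤ H := (norm_nonneg _).trans (hH 0)
  refine ⟨(G + H * r / 4) * E₀ + H / (4 * r) * volume.real (ball c r), by positivity, ?_⟩
  intro s t hs hst ht
  refine (pairing_increment h hs hst ht hr hφ hG hH).trans ?_
  have h1 : ∫ τ in s..t, locEn u c r τ ≤ E₀ * (t - s) := by
    have h2 : ‖∫ τ in s..t, locEn u c r τ‖ ≤ E₀ * |t - s| := by
      refine intervalIntegral.norm_integral_le_of_norm_le_const fun τ hτ => ?_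
      rw [uIoc_of_le hst] at hτ
      rw [Real.norm_eq_abs, abs_of_nonneg (locEn_nonneg _ _ _ _)]
      exact hE τ ⟨hs.trans hτ.1, hτ.2.trans_lt ht⟩ c r
    rw [abs_of_nonneg (sub_nonneg.2 hst)] at h2
    exact (le_abs_self _).trans h2
  have h3 : 0 ≤ G + H * r / 4 := by positivity
  nlinarith [mul_le_mul_of_nonneg_left h1 h3]

theorem exists_bounds {φ : E → E} {c : E} {r : ℝ} (hφ : IsTest c r φ) :
    ∃ G H A : ℝ, (∀ x, ‖fderiv ℝ φ x‖ ≤ G) ∧ (∀ x, ‖lapV φ x‖ ≤ H) ∧ ∀ x, ‖curl φ x‖ ≤ A := by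
  have hc := hasCompactSupport_of_ball hφ.supp
  have bd : ∀ {F : Type} [NormedAddCommGroup F] (f : E → F), Continuous f →
      (∀ x, x ∉ tsupport φ → f x = 0) → ∃ C : ℝ, ∀ x, ‖f x‖ ≤ C := by
    intro F _ f hf h0
    obtain ⟨C, hC⟩ := hc.isCompact.exists_bound_of_continuousOn hf.continuousOn
    refine ⟨max C 0, fun x => ?_⟩
    by_cases hx : x ∈ tsupport φ
    · exact (hC x hx).trans (le_max_left _ _)
    · rw [h0 x hx, norm_zero]; exact le_max_right _ _
  have G : ∀ j, ContDiff ℝ ∞ (fun x => φ x j) := fun j => contDiff_comp hφ.smooth j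
  have G1 : ∀ j, ContDiff ℝ 1 (fun x => φ x j) := fun j => (G j).of_le (by norm_num)
  obtain ⟨C1, h1⟩ := bd (fderiv ℝ φ) (hφ.smooth.continuous_fderiv (by simp))
    fun x hx => fderiv_eq_zero hx
  obtain ⟨C2, h2⟩ := bd (lapV φ) (by
    have : ∀ i, Continuous (fun x => lapV φ x i) := by
      intro i
      simp only [lapV_apply]
      exact (contDiff_lap (G i)).continuous
    exact (PiLp.continuous_toLp 2 _).comp (continuous_pi this)) fun x hx => lapV_eq_zero hx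
  obtain ⟨C3, h3⟩ := bd (curl φ) (by
    have : ∀ i, Continuous (fun x => curl φ x i) := by
      intro i
      fin_cases i
      · exact (continuous_pd (G1 2) 1).sub (continuous_pd (G1 1) 2)
      · exact (continuous_pd (G1 0) 2).sub (continuous_pd (G1 2) 0)
      · exact (continuous_pd (G1 1) 0).sub (continuous_pd (G1 0) 1)
    exact (PiLp.continuous_toLp 2 _).comp (continuous_pi this)) fun x hx => curl_eq_zero hx
  exact ⟨C1, C2, C3, h1, h2, h3⟩

/-- The velocity has a terminal value, as a functional on solenoidal test fields. -/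
theorem tendsto_pair (h : IsSolution T u p) (hT : 0 < T) {φ : E → E} {c : E} {r : ℝ}
    (hr : 0 < r) (hφ : IsTest c r φ) :
    Tendsto (pair u φ) (𝓝[<] T) (𝓝 (limUnder (𝓝[<] T) (pair u φ))) := by
  obtain ⟨G, H, A, hG, hH, -⟩ := exists_bounds hφ
  obtain ⟨C, hC0, hC⟩ := pair_lipschitz h hr hφ hG hH
  apply tendsto_nhds_limUnder
  have hl : LipschitzOnWith (Real.toNNReal C) (pair u φ) (Ioo 0 T) := by
    refine LipschitzOnWith.of_dist_le_mul fun x hx y hy => ?_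
    rw [Real.coe_toNNReal C hC0, Real.dist_eq, Real.dist_eq]
    rcases le_total x y with hxy | hxy
    · rw [abs_sub_comm, abs_sub_comm x y, abs_of_nonneg (sub_nonneg.2 hxy)]
      exact hC x y hx.1 hxy hy.2
    · rw [abs_of_nonneg (sub_nonneg.2 hxy)]
      exact hC y x hy.1 hxy hx.2
  obtain ⟨g, hg, hgf⟩ := hl.extend_real
  refine ⟨g T, ?_⟩
  have h1 : Tendsto g (𝓝[<] T) (𝓝 (g T)) := hg.continuous.continuousAt.mono_left nhdsWithin_le_nhds
  refine h1.congr' ?_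
  filter_upwards [Ioo_mem_nhdsLT hT] with t ht
  exact (hgf ht).symm

theorem abs_pd_le (φ : E → E) {x : E} (hφ : DifferentiableAt ℝ φ x) (i j : Fin 3) :
    |pd i (fun y => φ y j) x| ≤ ‖fderiv ℝ φ x‖ := by
  rw [pd_def, fderiv_comp_apply hφ]
  have h1 : |(fderiv ℝ φ x (bv i)) j| ≤ ‖fderiv ℝ φ x (bv i)‖ := by
    rw [← Real.norm_eq_abs]
    exact PiLp.norm_apply_le _ _
  have h2 : ‖fderiv ℝ φ x (bv i)‖ ≤ ‖fderiv ℝ φ x‖ * ‖bv i‖ := (fderiv ℝ φ x).le_opNorm _
  have h3 : ‖bv i‖ = 1 := by simp [bv]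
  rw [h3, mul_one] at h2
  exact h1.trans h2

theorem norm_curl_le (φ : E → E) {x : E} (hφ : DifferentiableAt ℝ φ x) :
    ‖curl φ x‖ ≤ 4 * ‖fderiv ℝ φ x‖ := by
  set N := ‖fderiv ℝ φ x‖ with hN
  have hN0 : 0 ≤ N := norm_nonneg _
  have b := fun i j => abs_le.1 (abs_pd_le φ hφ i j)
  rw [← hN] at b
  have e : ‖curl φ x‖ ^ 2 = (curl φ x 0) ^ 2 + (curl φ x 1) ^ 2 + (curl φ x 2) ^ 2 := by
    rw [EuclideanSpace.norm_sq_eq, Fin.sum_univ_three]
    simp
  have c0 : (curl φ x 0) ^ 2 ≤ (2 * N) ^ 2 := by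
    apply sq_le_sq'
    · have := b 1 2; have := b 2 1; simp only [curl]; simp; linarith [(b 1 2).1, (b 2 1).2]
    · simp only [curl]; simp; linarith [(b 1 2).2, (b 2 1).1]
  have c1 : (curl φ x 1) ^ 2 ≤ (2 * N) ^ 2 := by
    apply sq_le_sq'
    · simp only [curl]; simp; linarith [(b 2 0).1, (b 0 2).2]
    · simp only [curl]; simp; linarith [(b 2 0).2, (b 0 2).1]
  have c2 : (curl φ x 2) ^ 2 ≤ (2 * N) ^ 2 := by
    apply sq_le_sq'
    · simp only [curl]; simp; linarith [(b 0 1).1, (b 1 0).2]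
    · simp only [curl]; simp; linarith [(b 0 1).2, (b 1 0).1]
  apply le_of_sq_le_sq _ (by positivity)
  nlinarith

end Pool.Agent.NSB
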