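import Pool.Agent.NSB.Ibp

set_option autoImplicit false

open MeasureTheory Set Filter Topology Metric
open scoped ContDiff ENNReal

noncomputable section

namespace Pool.Agent.NSB

theorem int_pd {f g : E → ℝ} (hf : ContDiff ℝ 1 f) (hg : ContDiff ℝ 1 g)
    (hc : HasCompactSupport g) (i : Fin 3) : Integrable (fun x => pd i f x * g x) :=
  ((continuous_pd hf i).mul hg.continuous).integrable_of_hasCompactSupport hc.mul_left

theorem int_pd' {f g : E → ℝ} (hf : ContDiff ℝ 1 f) (hg : ContDiff ℝ 1 g)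
    (hc : HasCompactSupport g) (i : Fin 3) : Integrable (fun x => f x * pd i g x) :=
  (hf.continuous.mul (continuous_pd hg i)).integrable_of_hasCompactSupport
    (hasCompactSupport_pd hc i).mul_left

theorem int6 {f1 f2 f3 f4 f5 f6 : E → ℝ} (h1 : Integrable f1) (h2 : Integrable f2)
    (h3 : Integrable f3) (h4 : Integrable f4) (h5 : Integrable f5) (h6 : Integrable f6) :
    ∫ x, (((f1 x - f2 x) + (f3 x - f4 x)) + (f5 x - f6 x))
      = (((∫ x, f1 x) - ∫ x, f2 x) + ((∫ x, f3 x) - ∫ x, f4 x)) + ((∫ x, f5 x) - ∫ x, f6 x) := by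
  have a1 : ∫ x, (((f1 x - f2 x) + (f3 x - f4 x)) + (f5 x - f6 x))
      = (∫ x, ((f1 x - f2 x) + (f3 x - f4 x))) + ∫ x, (f5 x - f6 x) :=
    integral_add ((h1.sub h2).add (h3.sub h4)) (h5.sub h6)
  have a2 : ∫ x, ((f1 x - f2 x) + (f3 x - f4 x)) = (∫ x, (f1 x - f2 x)) + ∫ x, (f3 x - f4 x) :=
    integral_add (h1.sub h2) (h3.sub h4)
  rw [a1, a2, integral_sub h1 h2, integral_sub h3 h4, integral_sub h5 h6]

/-- The curl is symmetric. -/
theorem integral_curl {ψ φ : E → E} (hψ : ContDiff ℝ 1 ψ) (hφ : ContDiff ℝ 1 φ)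
    (hc : HasCompactSupport φ) :
    ∫ x, inner ℝ (curl ψ x) (φ x) = ∫ x, inner ℝ (ψ x) (curl φ x) := by
  have P : ∀ j, ContDiff ℝ 1 (fun x => ψ x j) := fun j => contDiff_comp hψ j
  have Q : ∀ j, ContDiff ℝ 1 (fun x => φ x j) := fun j => contDiff_comp hφ j
  have C : ∀ j, HasCompactSupport (fun x => φ x j) := fun j => hasCompactSupport_comp hc j
  have I := fun i j k => int_pd (P j) (Q k) (C k) i
  have I' := fun i j k => int_pd' (P j) (Q k) (C k) i
  have K := fun i j k => ibp (P j) (Q k) (C k) i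
  have e1 : ∀ x, inner ℝ (curl ψ x) (φ x)
      = (((pd 1 (fun y => ψ y 2) x * φ x 0 - pd 2 (fun y => ψ y 1) x * φ x 0)
        + (pd 2 (fun y => ψ y 0) x * φ x 1 - pd 0 (fun y => ψ y 2) x * φ x 1))
        + (pd 0 (fun y => ψ y 1) x * φ x 2 - pd 1 (fun y => ψ y 0) x * φ x 2)) := by
    intro x
    rw [inner_eq_sum]
    simp only [curl]
    simp
    ring
  have e2 : ∀ x, inner ℝ (ψ x) (curl φ x)
      = (((ψ x 0 * pd 1 (fun y => φ y 2) x - ψ x 0 * pd 2 (fun y => φ y 1) x)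
        + (ψ x 1 * pd 2 (fun y => φ y 0) x - ψ x 1 * pd 0 (fun y => φ y 2) x))
        + (ψ x 2 * pd 0 (fun y => φ y 1) x - ψ x 2 * pd 1 (fun y => φ y 0) x)) := by
    intro x
    rw [inner_eq_sum]
    simp only [curl]
    simp
    ring
  simp only [e1, e2]
  rw [int6 (I 1 2 0) (I 2 1 0) (I 2 0 1) (I 0 2 1) (I 0 1 2) (I 1 0 2),
    int6 (I' 1 0 2) (I' 2 0 1) (I' 2 1 0) (I' 0 1 2) (I' 0 2 1) (I' 1 2 0),
    K 1 2 0, K 2 1 0, K 2 0 1, K 0 2 1, K 0 1 2, K 1 0 2]
  ring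

theorem curl_sub_const (ψ : E → E) (a : E) : curl (fun x => ψ x - a) = curl ψ := by
  have h : ∀ i j x, pd i (fun y => (ψ y - a) j) x = pd i (fun y => ψ y j) x := by
    intro i j x
    simp only [pd_def, PiLp.sub_apply]
    rw [fderiv_sub_const]
  funext x
  simp only [curl, h]

theorem curl_eq_zero {φ : E → E} {x : E} (hx : x ∉ tsupport φ) : curl φ x = 0 := by
  have h : ∀ i j, pd i (fun y => φ y j) x = 0 := by
    intro i j
    by_contra h
    exact hx (tsupport_comp j (tsupport_pd i (subset_tsupport _ h)))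
  simp only [curl, h]
  ext i
  fin_cases i <;> simp

/-- Pairing with a test field supported in a ball, against the mean oscillation. -/
theorem pairing_le {ψ φ : E → E} {c : E} {r A : ℝ} (hr : 0 < r) (hψ : ContDiff ℝ 1 ψ)
    (hφ : ContDiff ℝ 1 φ) (hs : tsupport φ ⊆ ball c r) (hA : ∀ x, ‖curl φ x‖ ≤ A) :
    ‖∫ x, inner ℝ (curl ψ x) (φ x)‖ₑ
      ≤ ENNReal.ofReal A * (volume (ball c r) * bmo ψ) := by
  have hc : HasCompactSupport φ :=
    (isCompact_closedBall c r).of_isClosed_subset isClosed_closure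
      (hs.trans ball_subset_closedBall)
  set a : E := ⨍ y in ball c r, ψ y with ha
  have h1 : ∫ x, inner ℝ (curl ψ x) (φ x) = ∫ x, inner ℝ (ψ x - a) (curl φ x) := by
    rw [← integral_curl (ψ := fun x => ψ x - a) (hψ.sub contDiff_const) hφ hc, curl_sub_const]
  rw [h1]
  have h2 : ∀ x, ‖inner ℝ (ψ x - a) (curl φ x)‖ₑ
      ≤ (ball c r).indicator (fun x => ENNReal.ofReal A * ‖ψ x - a‖ₑ) x := by
    intro x
    by_cases hx : x ∈ ball c r
    · rw [indicator_of_mem hx]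
      have h3 : ‖inner ℝ (ψ x - a) (curl φ x)‖ ≤ A * ‖ψ x - a‖ := by
        refine (norm_inner_le_norm _ _).trans ?_
        rw [mul_comm]
        exact mul_le_mul_of_nonneg_right (hA x) (norm_nonneg _)
      have hA0 : 0 ≤ A := (norm_nonneg _).trans (hA x)
      rw [← ofReal_norm, ← ofReal_norm, ← ENNReal.ofReal_mul hA0]
      exact ENNReal.ofReal_le_ofReal h3
    · have : curl φ x = 0 := curl_eq_zero fun h => hx (hs h)
      simp [this]
  calc ‖∫ x, inner ℝ (ψ x - a) (curl φ x)‖ₑ ≤ ∫⁻ x, ‖inner ℝ (ψ x - a) (curl φ x)‖ₑ :=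
        enorm_integral_le_lintegral_enorm _
    _ ≤ ∫⁻ x, (ball c r).indicator (fun x => ENNReal.ofReal A * ‖ψ x - a‖ₑ) x :=
        lintegral_mono h2
    _ = ∫⁻ x in ball c r, ENNReal.ofReal A * ‖ψ x - a‖ₑ :=
        lintegral_indicator measurableSet_ball _
    _ = ENNReal.ofReal A * ∫⁻ x in ball c r, ‖ψ x - a‖ₑ := by
        rw [lintegral_const_mul' _ _ ENNReal.ofReal_ne_top]
    _ ≤ ENNReal.ofReal A * (volume (ball c r) * bmo ψ) := by
        gcongr
        have h4 : (volume (ball c r))⁻¹ * ∫⁻ x in ball c r, ‖ψ x - a‖ₑ ≤ bmo ψ := by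
          unfold bmo
          exact le_iSup_of_le c (le_iSup_of_le r (le_iSup_of_le hr le_rfl))
        have hv0 : volume (ball c r) ≠ 0 := (measure_ball_pos volume c hr).ne'
        have hv1 : volume (ball c r) ≠ ⊤ := measure_ball_lt_top.ne
        calc ∫⁻ x in ball c r, ‖ψ x - a‖ₑ
            = volume (ball c r) * ((volume (ball c r))⁻¹ * ∫⁻ x in ball c r, ‖ψ x - a‖ₑ) := by
              rw [← mul_assoc, ENNReal.mul_inv_cancel hv0 hv1, one_mul]
          _ ≤ _ := by gcongr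

end Pool.Agent.NSB
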