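import Pool.Agent.NSB.Weak

set_option autoImplicit false

open MeasureTheory Set Filter Topology Metric
open scoped ContDiff ENNReal

noncomputable section

namespace Pool.Agent.NSB

/-- time derivative of the velocity -/
def dt (u : ℝ → E → E) (s : ℝ) (x : E) : E := fderiv ℝ (fun q : ℝ × E => u q.1 q.2) (s, x) (1, 0)

theorem isOpen_slab (T : ℝ) : IsOpen (Ioo 0 T ×ˢ (univ : Set E)) := isOpen_Ioo.prod isOpen_univ

variable {T : ℝ} {u : ℝ → E → E} {p : ℝ → E → ℝ}

theorem slice_smooth {F : Type*} [NormedAddCommGroup F] [NormedSpace ℝ F] {w : ℝ → E → F}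
    (h : ContDiffOn ℝ ∞ (fun q : ℝ × E => w q.1 q.2) (Ioo 0 T ×ˢ univ)) {t : ℝ}
    (ht : t ∈ Ioo 0 T) : ContDiff ℝ ∞ (w t) := by
  rw [← contDiffOn_univ]
  have h1 : ContDiffOn ℝ ∞ (fun x : E => ((t, x) : ℝ × E)) univ :=
    (contDiff_const.prodMk contDiff_id).contDiffOn
  exact h.comp h1 fun x _ => ⟨ht, mem_univ _⟩

theorem hasDerivAt_time (h : ContDiffOn ℝ ∞ (fun q : ℝ × E => u q.1 q.2) (Ioo 0 T ×ˢ univ))
    {t : ℝ} (ht : t ∈ Ioo 0 T) (x : E) : HasDerivAt (fun s => u s x) (dt u t x) t := by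
  have h1 : DifferentiableAt ℝ (fun q : ℝ × E => u q.1 q.2) (t, x) :=
    (h.contDiffAt ((isOpen_slab T).mem_nhds ⟨ht, mem_univ _⟩)).differentiableAt (by simp)
  have h2 : HasDerivAt (fun s : ℝ => ((s, x) : ℝ × E)) (1, 0) t :=
    (hasDerivAt_id t).prodMk (hasDerivAt_const t x)
  exact h1.hasFDerivAt.comp_hasDerivAt t h2

theorem continuousOn_dt (h : ContDiffOn ℝ ∞ (fun q : ℝ × E => u q.1 q.2) (Ioo 0 T ×ˢ univ)) :
    ContinuousOn (fun q : ℝ × E => dt u q.1 q.2) (Ioo 0 T ×ˢ univ) := by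
  have h1 := h.continuousOn_fderiv_of_isOpen (isOpen_slab T) (by simp)
  exact h1.clm_apply continuousOn_const

theorem hasDerivAt_comp_time (h : ContDiffOn ℝ ∞ (fun q : ℝ × E => u q.1 q.2) (Ioo 0 T ×ˢ univ))
    {t : ℝ} (ht : t ∈ Ioo 0 T) (x : E) (i : Fin 3) :
    HasDerivAt (fun s => u s x i) (dt u t x i) t := by
  have h1 := hasDerivAt_time h ht x
  exact (EuclideanSpace.proj (𝕜 := ℝ) i).hasFDerivAt.comp_hasDerivAt t h1

/-- differentiation under the integral sign -/
theorem hasDerivAt_pairing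
    (h : ContDiffOn ℝ ∞ (fun q : ℝ × E => u q.1 q.2) (Ioo 0 T ×ˢ univ))
    {t : ℝ} (ht : t ∈ Ioo 0 T) {φ : E → E} (hφ : Continuous φ) (hc : HasCompactSupport φ) :
    HasDerivAt (fun s => ∫ x, inner ℝ (u s x) (φ x)) (∫ x, inner ℝ (dt u t x) (φ x)) t := by
  obtain ⟨ε, hε, hb⟩ : ∃ ε > 0, closedBall t ε ⊆ Ioo 0 T :=
    nhds_basis_closedBall.mem_iff.1 (isOpen_Ioo.mem_nhds ht)
  have hK : IsCompact (closedBall t ε ×ˢ tsupport φ) := (isCompact_closedBall t ε).prod hc
  have hsub : closedBall t ε ×ˢ tsupport φ ⊆ Ioo 0 T ×ˢ (univ : Set E) :=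
    prod_mono hb (subset_univ _)
  obtain ⟨C, hC⟩ := hK.exists_bound_of_continuousOn ((continuousOn_dt h).mono hsub)
  have hu : ∀ s ∈ Ioo 0 T, Continuous (u s) := fun s hs => (slice_smooth h hs).continuous
  have hdt : Continuous (dt u t) := by
    have h1 : ContinuousOn (fun x : E => ((t, x) : ℝ × E)) univ :=
      (continuous_const.prodMk continuous_id).continuousOn
    have := (continuousOn_dt h).comp h1 fun x _ => ⟨ht, mem_univ _⟩
    exact continuousOn_univ.1 this
  have hball : ball t ε ∈ 𝓝 t := ball_mem_nhds t hε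
  refine (hasDerivAt_integral_of_dominated_loc_of_deriv_le (bound := fun x => C * ‖φ x‖)
    (F' := fun s x => inner ℝ (dt u s x) (φ x)) hball ?_ ?_ ?_ ?_ ?_ ?_).2
  · filter_upwards [isOpen_Ioo.mem_nhds ht] with s hs
    exact ((hu s hs).inner hφ).aestronglyMeasurable
  · refine ((hu t ht).inner hφ).integrable_of_hasCompactSupport ?_
    refine hc.mono' ?_
    intro x hx
    by_contra h0
    apply hx
    simp [image_eq_zero_of_notMem_tsupport h0]
  · exact (hdt.inner hφ).aestronglyMeasurable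
  · refine Eventually.of_forall fun x s hs => ?_
    by_cases hx : x ∈ tsupport φ
    · refine (norm_inner_le_norm _ _).trans ?_
      exact mul_le_mul_of_nonneg_right (hC (s, x) ⟨ball_subset_closedBall hs, hx⟩) (norm_nonneg _)
    · simp [image_eq_zero_of_notMem_tsupport hx]
  · exact (continuous_const.mul hφ.norm).integrable_of_hasCompactSupport
      (HasCompactSupport.mul_left hc.norm)
  · refine Eventually.of_forall fun x s hs => ?_
    have hs' : s ∈ Ioo 0 T := hb (ball_subset_closedBall hs)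
    have h1 := hasDerivAt_time h hs' x
    have h2 := (h1.inner ℝ (hasDerivAt_const s (φ x)))
    simpa using h2

end Pool.Agent.NSB
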