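import Pool.Agent.NSB.Pair

set_option autoImplicit false

open MeasureTheory Set Filter Topology Metric
open scoped ContDiff ENNReal

noncomputable section

namespace Pool.Agent.NSB

theorem int_mul {f g : E → ℝ} (hf : Continuous f) (hg : Continuous g)
    (hc : HasCompactSupport g) : Integrable (fun x => f x * g x) :=
  (hf.mul hg).integrable_of_hasCompactSupport hc.mul_left

theorem lap_eq (f : E → ℝ) (x : E) : lap f x = ∑ j, pd j (pd j f) x := rfl

/-- Green's formula -/
theorem ibp_lap {f g : E → ℝ} (hf : ContDiff ℝ ∞ f) (hg : ContDiff ℝ ∞ g)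
    (hc : HasCompactSupport g) :
    ∫ x, lap f x * g x = ∫ x, f x * lap g x := by
  have hf1 : ContDiff ℝ 1 f := hf.of_le (by norm_num)
  have hg1 : ContDiff ℝ 1 g := hg.of_le (by norm_num)
  have key : ∀ j, ∫ x, pd j (pd j f) x * g x = ∫ x, f x * pd j (pd j g) x := by
    intro j
    have h1 := ibp ((contDiff_pd hf j).of_le (by norm_num)) hg1 hc j
    have h2 := ibp hf1 ((contDiff_pd hg j).of_le (by norm_num)) (hasCompactSupport_pd hc j) j
    rw [h1, h2]; ring
  simp only [lap_eq, Finset.sum_mul, Finset.mul_sum]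
  rw [integral_finsetSum, integral_finsetSum]
  · exact Finset.sum_congr rfl fun j _ => key j
  · intro j _
    exact int_pd' hf1 ((contDiff_pd hg j).of_le (by norm_num)) (hasCompactSupport_pd hc j) j
  · intro j _
    exact int_pd ((contDiff_pd hf j).of_le (by norm_num)) hg1 hc j

/-- convective term -/
theorem ibp_conv {v : E → E} {g : E → ℝ} (hv : ContDiff ℝ ∞ v) (hg : ContDiff ℝ ∞ g)
    (hc : HasCompactSupport g) (hd : ∀ x, dvg v x = 0) (i : Fin 3) :
    ∫ x, (∑ j, v x j * pd j (fun y => v y i) x) * g x
      = - ∫ x, ∑ j, v x i * v x j * pd j g x := by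
  have V : ∀ j, ContDiff ℝ ∞ (fun x => v x j) := fun j => contDiff_comp hv j
  have V1 : ∀ j, ContDiff ℝ 1 (fun x => v x j) := fun j => (V j).of_le (by norm_num)
  have hg1 : ContDiff ℝ 1 g := hg.of_le (by norm_num)
  have G : ∀ j, ContDiff ℝ 1 (fun x => v x j * g x) := fun j => (V1 j).mul hg1
  have GC : ∀ j, HasCompactSupport (fun x => v x j * g x) := fun j => hc.mul_left
  have key : ∀ j, ∫ x, v x j * pd j (fun y => v y i) x * g x
      = - (∫ x, v x i * pd j (fun y => v y j) x * g x) - ∫ x, v x i * v x j * pd j g x := by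
    intro j
    have h1 := ibp (V1 i) (G j) (GC j) j
    have h2 : ∫ x, v x j * pd j (fun y => v y i) x * g x
        = ∫ x, pd j (fun y => v y i) x * (v x j * g x) := by
      congr 1; ext x; ring
    have h3 : ∫ x, v x i * pd j (fun y => v y j * g y) x
        = (∫ x, v x i * pd j (fun y => v y j) x * g x) + ∫ x, v x i * v x j * pd j g x := by
      rw [← integral_add]
      · congr 1; ext x
        rw [pd_mul (V1 j) hg1]; ring
      · exact int_mul ((V1 i).continuous.mul (continuous_pd (V1 j) j)) hg1.continuous hc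
      · exact int_mul ((V1 i).continuous.mul (V1 j).continuous) (continuous_pd hg1 j)
          (hasCompactSupport_pd hc j)
    rw [h2, h1, h3]; ring
  have I1 : ∀ j ∈ (Finset.univ : Finset (Fin 3)),
      Integrable (fun x => v x j * pd j (fun y => v y i) x * g x) := by
    intro j _
    exact int_mul ((V1 j).continuous.mul (continuous_pd (V1 i) j)) hg1.continuous hc
  have I2 : ∀ j ∈ (Finset.univ : Finset (Fin 3)),
      Integrable (fun x => v x i * v x j * pd j g x) := by
    intro j _
    exact int_mul ((V1 i).continuous.mul (V1 j).continuous) (continuous_pd hg1 j)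
          (hasCompactSupport_pd hc j)
  have I3 : ∀ j ∈ (Finset.univ : Finset (Fin 3)),
      Integrable (fun x => v x i * pd j (fun y => v y j) x * g x) := by
    intro j _
    exact int_mul ((V1 i).continuous.mul (continuous_pd (V1 j) j)) hg1.continuous hc
  have h0 : ∑ j, ∫ x, v x i * pd j (fun y => v y j) x * g x = 0 := by
    rw [← integral_finsetSum _ I3]
    have : ∀ x, ∑ j, v x i * pd j (fun y => v y j) x * g x = 0 := by
      intro x
      have h := hd x
      unfold dvg at h
      rw [← Finset.sum_mul, ← Finset.mul_sum, h]; ring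
    simp [this]
  simp only [Finset.sum_mul]
  rw [integral_finsetSum _ I1, integral_finsetSum _ I2]
  simp only [key]
  rw [Finset.sum_sub_distrib, Finset.sum_neg_distrib, h0]; ring

theorem fderiv_apply_comp {φ : E → E} {x : E} (hφ : DifferentiableAt ℝ φ x) (w : E) (i : Fin 3) :
    (fderiv ℝ φ x w) i = ∑ j, w j * pd j (fun y => φ y i) x := by
  have hw : w = ∑ j, w j • bv j := by
    ext k
    simp [bv, Finset.sum_apply, Pi.single_apply]
  have h : (fderiv ℝ φ x w) i = fderiv ℝ (fun y => φ y i) x w := (fderiv_comp_apply hφ i w).symm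
  rw [h]
  conv_lhs => rw [hw]
  rw [map_sum]
  simp [pd_def]

end Pool.Agent.NSB
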