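import Pool.Agent.NSB.TimeDer

set_option autoImplicit false

open MeasureTheory Set Filter Topology Metric
open scoped ContDiff ENNReal

noncomputable section

namespace Pool.Agent.NSB

variable {T : ℝ} {u : ℝ → E → E} {p : ℝ → E → ℝ}

theorem inner_sum (a b : E) : inner ℝ a b = ∑ i, a i * b i := by
  rw [inner_eq_sum, Fin.sum_univ_three]

theorem lapV_apply (v : E → E) (x : E) (i : Fin 3) : lapV v x i = lap (fun y => v y i) x := by
  fin_cases i <;> simp [lapV]

theorem tsupport_lap {f : E → ℝ} : tsupport (lap f) ⊆ tsupport f := by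
  refine closure_minimal ?_ isClosed_closure
  intro x hx
  by_contra h
  apply hx
  have : ∀ i, pd i (pd i f) x = 0 := by
    intro i
    by_contra h2
    exact h (tsupport_pd i (tsupport_pd i (subset_tsupport _ h2)))
  simp [lap, this]

theorem hasCompactSupport_lap {f : E → ℝ} (hf : HasCompactSupport f) :
    HasCompactSupport (lap f) := by
  unfold HasCompactSupport at *
  exact hf.of_isClosed_subset isClosed_closure tsupport_lap

theorem contDiff_lap {f : E → ℝ} (hf : ContDiff ℝ ∞ f) : ContDiff ℝ ∞ (lap f) := by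
  unfold lap
  exact ContDiff.sum fun i _ => contDiff_pd (contDiff_pd hf i) i

/-- The weak form of the Navier-Stokes equations, tested against a solenoidal field. -/
theorem weak_form (h : IsSolution T u p) {t : ℝ} (ht : t ∈ Ioo 0 T) {φ : E → E}
    (hφ : ContDiff ℝ ∞ φ) (hc : HasCompactSupport φ) (hd : ∀ x, dvg φ x = 0) :
    ∫ x, inner ℝ (dt u t x) (φ x)
      = ∫ x, (inner ℝ (u t x) (fderiv ℝ φ x (u t x)) + (1 / 2) * inner ℝ (u t x) (lapV φ x)) := by
  have hv : ContDiff ℝ ∞ (u t) := slice_smooth h.smooth_vel ht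
  have hp : ContDiff ℝ ∞ (p t) := slice_smooth h.smooth_pres ht
  have V : ∀ j, ContDiff ℝ ∞ (fun x => u t x j) := fun j => contDiff_comp hv j
  have V1 : ∀ j, ContDiff ℝ 1 (fun x => u t x j) := fun j => (V j).of_le (by norm_num)
  have hp1 : ContDiff ℝ 1 (p t) := hp.of_le (by norm_num)
  have G : ∀ j, ContDiff ℝ ∞ (fun x => φ x j) := fun j => contDiff_comp hφ j
  have G1 : ∀ j, ContDiff ℝ 1 (fun x => φ x j) := fun j => (G j).of_le (by norm_num)
  have GC : ∀ j, HasCompactSupport (fun x => φ x j) := fun j => hasCompactSupport_comp hc j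
  have hdt : ∀ x i, dt u t x i = - (∑ j, u t x j * pd j (fun y => u t y i) x)
      - pd i (p t) x + (1 / 2) * lap (fun y => u t y i) x := by
    intro x i
    have h1 := h.momentum t ht x i
    rw [(hasDerivAt_comp_time h.smooth_vel ht x i).deriv] at h1
    linarith
  -- integrability
  have J1 : ∀ i, Integrable (fun x => (∑ j, u t x j * pd j (fun y => u t y i) x) * φ x i) := by
    intro i
    refine int_mul ?_ (G1 i).continuous (GC i)
    exact continuous_finsetSum _ fun j _ => (V1 j).continuous.mul (continuous_pd (V1 i) j)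
  have J2 : ∀ i, Integrable (fun x => pd i (p t) x * φ x i) := fun i => int_pd hp1 (G1 i) (GC i) i
  have J3 : ∀ i, Integrable (fun x => lap (fun y => u t y i) x * φ x i) := fun i =>
    int_mul (contDiff_lap (V i)).continuous (G1 i).continuous (GC i)
  have J4 : ∀ i, Integrable (fun x => ∑ j, u t x i * u t x j * pd j (fun y => φ y i) x) := by
    intro i
    refine integrable_finsetSum _ fun j _ => ?_
    exact int_mul ((V1 i).continuous.mul (V1 j).continuous) (continuous_pd (G1 i) j)
      (hasCompactSupport_pd (GC i) j)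
  have J5 : ∀ i, Integrable (fun x => u t x i * lap (fun y => φ y i) x) := fun i =>
    int_mul (V1 i).continuous (contDiff_lap (G i)).continuous (hasCompactSupport_lap (GC i))
  have J6 : ∀ i, Integrable (fun x => p t x * pd i (fun y => φ y i) x) := fun i =>
    int_pd' hp1 (G1 i) (GC i) i
  have step : ∀ i, ∫ x, dt u t x i * φ x i
      = (∫ x, ∑ j, u t x i * u t x j * pd j (fun y => φ y i) x)
        + (∫ x, p t x * pd i (fun y => φ y i) x)
        + (1 / 2) * ∫ x, u t x i * lap (fun y => φ y i) x := by
    intro i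
    have e1 : ∀ x, dt u t x i * φ x i
        = (-((∑ j, u t x j * pd j (fun y => u t y i) x) * φ x i) - pd i (p t) x * φ x i)
          + (1 / 2) * (lap (fun y => u t y i) x * φ x i) := by
      intro x; rw [hdt]; ring
    have a1 : ∫ x, dt u t x i * φ x i
        = (∫ x, (-((∑ j, u t x j * pd j (fun y => u t y i) x) * φ x i)
            - pd i (p t) x * φ x i)) + ∫ x, (1 / 2) * (lap (fun y => u t y i) x * φ x i) := by
      simp only [e1]
      exact integral_add ((J1 i).neg.sub (J2 i)) ((J3 i).const_mul _)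
    have a2 : ∫ x, (-((∑ j, u t x j * pd j (fun y => u t y i) x) * φ x i)
            - pd i (p t) x * φ x i)
        = (∫ x, -((∑ j, u t x j * pd j (fun y => u t y i) x) * φ x i))
          - ∫ x, pd i (p t) x * φ x i := integral_sub (J1 i).neg (J2 i)
    rw [a1, a2, integral_neg, integral_const_mul, ibp_conv hv (G i) (GC i) (h.div_free t ht) i,
      ibp hp1 (G1 i) (GC i) i, ibp_lap (V i) (G i) (GC i)]
    ring
  have l1 : ∀ x, inner ℝ (dt u t x) (φ x) = ∑ i, dt u t x i * φ x i := fun x => inner_sum _ _
  have l2 : ∀ x, inner ℝ (u t x) (fderiv ℝ φ x (u t x))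
      = ∑ i, ∑ j, u t x i * u t x j * pd j (fun y => φ y i) x := by
    intro x
    rw [inner_sum]
    refine Finset.sum_congr rfl fun i _ => ?_
    rw [fderiv_apply_comp (hφ.differentiable (by simp) x), Finset.mul_sum]
    refine Finset.sum_congr rfl fun j _ => ?_
    ring
  have l3 : ∀ x, inner ℝ (u t x) (lapV φ x) = ∑ i, u t x i * lap (fun y => φ y i) x := by
    intro x
    rw [inner_sum]
    refine Finset.sum_congr rfl fun i _ => ?_
    rw [lapV_apply]
  have hpz : ∑ i, ∫ x, p t x * pd i (fun y => φ y i) x = 0 := by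
    rw [← integral_finsetSum _ fun i _ => J6 i]
    have : ∀ x, ∑ i, p t x * pd i (fun y => φ y i) x = 0 := by
      intro x
      have h0 := hd x
      unfold dvg at h0
      rw [← Finset.mul_sum, h0, mul_zero]
    simp [this]
  have K1 : ∀ i, Integrable (fun x => dt u t x i * φ x i) := by
    intro i
    have e1 : (fun x => dt u t x i * φ x i)
        = fun x => (-((∑ j, u t x j * pd j (fun y => u t y i) x) * φ x i)
            - pd i (p t) x * φ x i) + (1 / 2) * (lap (fun y => u t y i) x * φ x i) := by
      funext x; rw [hdt]; ring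
    rw [e1]
    exact ((J1 i).neg.sub (J2 i)).add ((J3 i).const_mul _)
  simp only [l1, l2, l3]
  rw [integral_finsetSum _ fun i _ => K1 i]
  rw [integral_add (integrable_finsetSum _ fun i _ => J4 i)
    ((integrable_finsetSum _ fun i _ => J5 i).const_mul _),
    integral_finsetSum _ fun i _ => J4 i, integral_const_mul,
    integral_finsetSum _ fun i _ => J5 i]
  simp only [step]
  rw [Finset.sum_add_distrib, Finset.sum_add_distrib, hpz, Finset.mul_sum]
  ring

theorem hasDerivAt_weak (h : IsSolution T u p) {t : ℝ} (ht : t ∈ Ioo 0 T) {φ : E → E}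
    (hφ : ContDiff ℝ ∞ φ) (hc : HasCompactSupport φ) (hd : ∀ x, dvg φ x = 0) :
    HasDerivAt (fun s => ∫ x, inner ℝ (u s x) (φ x))
      (∫ x, (inner ℝ (u t x) (fderiv ℝ φ x (u t x)) + (1 / 2) * inner ℝ (u t x) (lapV φ x))) t := by
  rw [← weak_form h ht hφ hc hd]
  exact hasDerivAt_pairing h.smooth_vel ht hφ.continuous hc

end Pool.Agent.NSB
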